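import Pool.Agent.W92.ET.Base

/-! Subtask ET-PSD: S_psd from S_lap and S_bd. -/

set_option autoImplicit false

open MeasureTheory Set

namespace Pool.Agent.W334.ET

open Pool.Agent.W92.ET

noncomputable section

/-- Lebesgue measure on the positive half line -/
abbrev mu : Measure ℝ := volume.restrict (Ioi (0:ℝ))

/-- domination -/
structure Dom (f : ℝ → ℝ → ℝ) (w : ℝ → ℝ) : Prop where
  cont : Continuous (Function.uncurry f)
  w0 : ∀ u, 0 < u → 0 ≤ w u
  wi : Integrable (fun u => w u ^ 2) mu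
  bd : ∀ u τ, 0 < u → 0 ≤ τ → |f u τ| ≤ w u * Real.exp (-(τ/4))

/-- marginal -/
def MM (f : ℝ → ℝ → ℝ) (u : ℝ) : ℝ := ∫ τ, f u τ ∂mu

theorem pos_ae : ∀ᵐ u ∂mu, (0:ℝ) < u := by
  exact ae_restrict_mem measurableSet_Ioi

theorem ei : Integrable (fun τ : ℝ => Real.exp (-(τ/4))) mu := by
  have h := integrableOn_exp_mul_Ioi (a := -(1/4:ℝ)) (by norm_num) 0
  refine h.congr ?_
  refine Filter.Eventually.of_forall (fun τ => ?_)
  simp only
  congr 1; ring

theorem evl : ∫ τ, Real.exp (-(τ/4)) ∂mu = 4 := by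
  have h := integral_exp_mul_Ioi (a := -(1/4:ℝ)) (by norm_num) 0
  rw [show (fun τ : ℝ => Real.exp (-(τ/4))) = (fun τ : ℝ => Real.exp (-(1/4) * τ)) by
    funext τ; congr 1; ring]
  rw [h]; norm_num

variable {f : ℝ → ℝ → ℝ} {w : ℝ → ℝ}

theorem Dom.cu (h : Dom f w) (u : ℝ) : Continuous (fun τ => f u τ) := by
  have := h.cont
  exact this.comp (by fun_prop : Continuous (fun τ : ℝ => (u, τ)))

theorem Dom.ct (h : Dom f w) (τ : ℝ) : Continuous (fun u => f u τ) := by
  have := h.cont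
  exact this.comp (by fun_prop : Continuous (fun u : ℝ => (u, τ)))

theorem Dom.intR (h : Dom f w) (u : ℝ) (hu : 0 < u) : Integrable (fun τ => f u τ) mu := by
  refine (ei.const_mul (w u)).mono' (h.cu u).aestronglyMeasurable ?_
  filter_upwards [pos_ae] with τ hτ
  rw [Real.norm_eq_abs]
  exact h.bd u τ hu hτ.le

theorem Dom.Mb (h : Dom f w) (u : ℝ) (hu : 0 < u) : |MM f u| ≤ 4 * w u := by
  unfold MM
  have h1 : |∫ τ, f u τ ∂mu| ≤ ∫ τ, w u * Real.exp (-(τ/4)) ∂mu := by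
    rw [← Real.norm_eq_abs]
    refine norm_integral_le_of_norm_le (ei.const_mul (w u)) ?_
    filter_upwards [pos_ae] with τ hτ
    rw [Real.norm_eq_abs]
    exact h.bd u τ hu hτ.le
  rw [integral_const_mul, evl] at h1
  linarith

theorem Dom.Mm (h : Dom f w) : StronglyMeasurable (MM f) := by
  unfold MM
  exact h.cont.stronglyMeasurable.integral_prod_right

theorem Dom.one (h : Dom f w) {g1 g2 : ℝ → ℝ} (c1 c2 : ℝ) (m1 : StronglyMeasurable g1)
    (m2 : StronglyMeasurable g2) (b1 : ∀ u, 0 < u → |g1 u| ≤ c1 * w u)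
    (b2 : ∀ u, 0 < u → |g2 u| ≤ c2 * w u) : Integrable (fun u => g1 u * g2 u) mu := by
  refine (h.wi.const_mul (c1 * c2)).mono' (m1.mul m2).aestronglyMeasurable ?_
  filter_upwards [pos_ae] with u hu
  rw [Real.norm_eq_abs, abs_mul]
  calc |g1 u| * |g2 u| ≤ (c1 * w u) * (c2 * w u) :=
        mul_le_mul (b1 u hu) (b2 u hu) (abs_nonneg _) (le_trans (abs_nonneg _) (b1 u hu))
    _ = c1 * c2 * w u ^ 2 := by ring

theorem Dom.prodI (h : Dom f w) {g : ℝ → ℝ} (c : ℝ) (hg : StronglyMeasurable g)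
    (hgb : ∀ u, 0 < u → |g u| ≤ c * w u) :
    Integrable (Function.uncurry (fun u τ => g u * f u τ)) (mu.prod mu) := by
  have hd : Integrable (fun z : ℝ × ℝ => (c * w z.1 ^ 2) * Real.exp (-(z.2/4))) (mu.prod mu) :=
    (h.wi.const_mul c).mul_prod ei
  refine hd.mono' ?_ ?_
  · refine StronglyMeasurable.aestronglyMeasurable ?_
    have e : Function.uncurry (fun u τ => g u * f u τ) =
        fun z : ℝ × ℝ => g z.1 * Function.uncurry f z := by
      funext z; rfl
    rw [e]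
    exact (hg.comp_measurable measurable_fst).mul h.cont.stronglyMeasurable
  · have hp : ∀ᵐ z ∂(mu.prod mu), (0:ℝ) < z.1 ∧ (0:ℝ) < z.2 := by
      rw [Measure.prod_restrict]
      filter_upwards [ae_restrict_mem (measurableSet_Ioi.prod measurableSet_Ioi)] with z hz
      exact hz
    filter_upwards [hp] with z hz
    obtain ⟨u, τ⟩ := z
    obtain ⟨hu, hτ⟩ := hz
    simp only at hu hτ
    simp only [Function.uncurry_apply_pair]
    rw [Real.norm_eq_abs, abs_mul]
    calc |g u| * |f u τ| ≤ (c * w u) * (w u * Real.exp (-(τ/4))) :=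
          mul_le_mul (hgb u hu) (h.bd u τ hu hτ.le) (abs_nonneg _)
            (le_trans (abs_nonneg _) (hgb u hu))
      _ = (c * w u ^ 2) * Real.exp (-(τ/4)) := by ring

theorem Dom.swapI (h : Dom f w) {g : ℝ → ℝ} (c : ℝ) (hg : StronglyMeasurable g)
    (hgb : ∀ u, 0 < u → |g u| ≤ c * w u) :
    Integrable (fun τ => ∫ u, g u * f u τ ∂mu) mu ∧
    ∫ u, g u * MM f u ∂mu = ∫ τ, ∫ u, g u * f u τ ∂mu ∂mu := by
  have hI := h.prodI c hg hgb
  constructor
  · exact hI.integral_prod_right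
  · rw [← integral_integral_swap hI]
    unfold MM
    refine integral_congr_ae (Filter.Eventually.of_forall (fun u => ?_))
    simp only
    rw [integral_const_mul]

theorem Dom.tb (h : Dom f w) (τ : ℝ) (hτ : 0 ≤ τ) (u : ℝ) (hu : 0 < u) : |f u τ| ≤ 1 * w u := by
  refine le_trans (h.bd u τ hu hτ) ?_
  rw [one_mul]
  refine mul_le_of_le_one_right (h.w0 u hu) ?_
  rw [Real.exp_le_one_iff]
  linarith

theorem Dom.psd (h : Dom f w) (s : Finset ℕ) (t : ℕ → ℝ) (ht : ∀ i ∈ s, 0 ≤ t i) (β : ℝ) :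
    0 ≤ ∑ i ∈ s, ∑ j ∈ s, (∫ u, f u (t i) * f u (t j) ∂mu) -
      2 * β * ∑ i ∈ s, (∫ u, f u (t i) * MM f u ∂mu) + β^2 * ∫ u, MM f u * MM f u ∂mu := by
  have i1 : ∀ i ∈ s, ∀ j ∈ s, Integrable (fun u => f u (t i) * f u (t j)) mu := fun i hi j hj =>
    h.one 1 1 (h.ct _).stronglyMeasurable (h.ct _).stronglyMeasurable (h.tb _ (ht i hi))
      (h.tb _ (ht j hj))
  have i2 : ∀ i ∈ s, Integrable (fun u => f u (t i) * MM f u) mu := fun i hi =>
    h.one 1 4 (h.ct _).stronglyMeasurable h.Mm (h.tb _ (ht i hi)) h.Mb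
  have i3 : Integrable (fun u => MM f u * MM f u) mu := h.one 4 4 h.Mm h.Mm h.Mb h.Mb
  have e : (∑ i ∈ s, ∑ j ∈ s, (∫ u, f u (t i) * f u (t j) ∂mu) -
      2 * β * ∑ i ∈ s, (∫ u, f u (t i) * MM f u ∂mu) + β^2 * ∫ u, MM f u * MM f u ∂mu) =
      ∫ u, (∑ i ∈ s, f u (t i) - β * MM f u)^2 ∂mu := by
    have e1 : ∀ u, (∑ i ∈ s, f u (t i) - β * MM f u)^2 =
        ∑ i ∈ s, ∑ j ∈ s, f u (t i) * f u (t j) - 2 * β * ∑ i ∈ s, f u (t i) * MM f u +
          β^2 * (MM f u * MM f u) := by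
      intro u
      rw [← Finset.sum_mul_sum, ← Finset.sum_mul]; ring
    simp_rw [e1]
    have j1 : Integrable (fun u => ∑ i ∈ s, ∑ j ∈ s, f u (t i) * f u (t j)) mu :=
      integrable_finsetSum _ (fun i hi => integrable_finsetSum _ (fun j hj => i1 i hi j hj))
    have j2 : Integrable (fun u => 2 * β * ∑ i ∈ s, f u (t i) * MM f u) mu :=
      (integrable_finsetSum _ (fun i hi => i2 i hi)).const_mul _
    have j3 : Integrable (fun u => β^2 * (MM f u * MM f u)) mu := i3.const_mul _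
    have j12 : Integrable (fun u => ∑ i ∈ s, ∑ j ∈ s, f u (t i) * f u (t j) -
      2 * β * ∑ i ∈ s, f u (t i) * MM f u) mu := j1.sub j2
    rw [integral_add j12 j3, integral_sub j1 j2, integral_const_mul, integral_const_mul,
      integral_finsetSum _ (fun i hi => integrable_finsetSum _ (fun j hj => i1 i hi j hj)),
      integral_finsetSum _ i2]
    congr 2
    refine Finset.sum_congr rfl (fun i hi => ?_)
    rw [integral_finsetSum _ (fun j hj => i1 i hi j hj)]
  rw [e]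
  exact integral_nonneg (fun u => sq_nonneg _)

/-- first function -/
def fP (u τ : ℝ) : ℝ := pp u (u * Real.cosh τ) * Real.exp (-(u * Real.cosh τ))
/-- second function -/
def fQ (u τ : ℝ) : ℝ := qq u (u * Real.cosh τ) * Real.exp (-(u * Real.cosh τ))

theorem contP : Continuous (Function.uncurry fP) := by
  unfold fP pp Function.uncurry
  have : Continuous (fun z : ℝ × ℝ => Real.cosh z.2) := Real.continuous_cosh.comp continuous_snd
  fun_prop

theorem contQ : Continuous (Function.uncurry fQ) := by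
  unfold fQ qq Function.uncurry
  have : Continuous (fun z : ℝ × ℝ => Real.cosh z.2) := Real.continuous_cosh.comp continuous_snd
  fun_prop

theorem w_int (C : ℝ) : Integrable
    (fun u : ℝ => (C * (u ^ (-(1 / 4 : ℝ)) * Real.exp (-(u / 4)))) ^ 2) mu := by
  have h := integrableOn_rpow_mul_exp_neg_mul_rpow (p := 1) (s := -(1/2:ℝ)) (b := 1/2)
    (by norm_num) (by norm_num) (by norm_num)
  refine (h.const_mul (C^2)).congr ?_
  filter_upwards [pos_ae] with u hu
  rw [mul_pow, mul_pow, ← Real.rpow_natCast, ← Real.rpow_natCast, ← Real.rpow_mul hu.le,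
    ← Real.exp_nat_mul, Real.rpow_one, Real.rpow_natCast]
  congr 2
  · norm_num
  · congr 1; push_cast; ring

theorem psd (h1 : S_lap) (h2 : S_bd) : S_psd := by
  obtain ⟨C, hC, hb⟩ := h2
  have w0 : ∀ u : ℝ, 0 < u → 0 ≤ C * (u ^ (-(1 / 4 : ℝ)) * Real.exp (-(u / 4))) := by
    intro u hu; positivity
  have dP : Dom fP (fun u => C * (u ^ (-(1 / 4 : ℝ)) * Real.exp (-(u / 4)))) := by
    refine ⟨contP, w0, w_int C, ?_⟩
    intro u τ hu hτ
    have := (hb u τ hu hτ).1
    unfold fP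
    rw [abs_mul, Real.abs_exp]
    exact this
  have dQ : Dom fQ (fun u => C * (u ^ (-(1 / 4 : ℝ)) * Real.exp (-(u / 4)))) := by
    refine ⟨contQ, w0, w_int C, ?_⟩
    intro u τ hu hτ
    have := (hb u τ hu hτ).2
    unfold fQ
    rw [abs_mul, Real.abs_exp]
    exact this
  have hk : ∀ a b : ℝ, 0 ≤ a → 0 ≤ b → (∫ u, fP u a * fP u b ∂mu) + (∫ u, fQ u a * fQ u b ∂mu) =
      kk (Real.cosh a) (Real.cosh b) := by
    intro a b ha hb'
    rw [← integral_add
      (dP.one 1 1 (dP.ct _).stronglyMeasurable (dP.ct _).stronglyMeasurable (dP.tb _ ha) (dP.tb _ hb'))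
      (dQ.one 1 1 (dQ.ct _).stronglyMeasurable (dQ.ct _).stronglyMeasurable (dQ.tb _ ha) (dQ.tb _ hb'))]
    rw [← (h1 _ _ (Real.cosh_pos a) (Real.cosh_pos b)).2]
    refine integral_congr_ae (Filter.Eventually.of_forall (fun u => ?_))
    simp only [fP, fQ]
    rw [show -(u * (Real.cosh a + Real.cosh b)) = -(u * Real.cosh a) + -(u * Real.cosh b) by ring,
      Real.exp_add]
    ring
  have hH : ∀ a : ℝ, 0 ≤ a → (∫ u, fP u a * MM fP u ∂mu) + (∫ u, fQ u a * MM fQ u ∂mu) =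
      HH (Real.cosh a) := by
    intro a ha
    obtain ⟨p1, p2⟩ := dP.swapI 1 (dP.ct a).stronglyMeasurable (dP.tb a ha)
    obtain ⟨q1, q2⟩ := dQ.swapI 1 (dQ.ct a).stronglyMeasurable (dQ.tb a ha)
    rw [p2, q2, ← integral_add p1 q1]
    unfold HH
    refine integral_congr_ae ?_
    filter_upwards [pos_ae] with τ hτ
    exact hk a τ ha hτ.le
  have hE : (∫ u, MM fP u * MM fP u ∂mu) + (∫ u, MM fQ u * MM fQ u ∂mu) = EE := by
    obtain ⟨p1, p2⟩ := dP.swapI 4 dP.Mm dP.Mb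
    obtain ⟨q1, q2⟩ := dQ.swapI 4 dQ.Mm dQ.Mb
    rw [p2, q2, ← integral_add p1 q1]
    unfold EE
    refine integral_congr_ae ?_
    filter_upwards [pos_ae] with τ hτ
    have := hH τ hτ.le
    rw [← this]
    congr 1
    · refine integral_congr_ae (Filter.Eventually.of_forall (fun u => ?_))
      simp only; ring
    · refine integral_congr_ae (Filter.Eventually.of_forall (fun u => ?_))
      simp only; ring
  intro s y β hy
  have hp := dP.psd s (fun i => Real.arcosh (y i)) (fun i hi => Real.arcosh_nonneg (hy i hi)) β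
  have hq := dQ.psd s (fun i => Real.arcosh (y i)) (fun i hi => Real.arcosh_nonneg (hy i hi)) β
  have e1 : ∑ i ∈ s, ∑ j ∈ s, kk (y i) (y j) =
      ∑ i ∈ s, ∑ j ∈ s, (∫ u, fP u (Real.arcosh (y i)) * fP u (Real.arcosh (y j)) ∂mu) +
      ∑ i ∈ s, ∑ j ∈ s, (∫ u, fQ u (Real.arcosh (y i)) * fQ u (Real.arcosh (y j)) ∂mu) := by
    rw [← Finset.sum_add_distrib]
    refine Finset.sum_congr rfl (fun i hi => ?_)
    rw [← Finset.sum_add_distrib]
    refine Finset.sum_congr rfl (fun j hj => ?_)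
    rw [hk _ _ (Real.arcosh_nonneg (hy i hi)) (Real.arcosh_nonneg (hy j hj)),
      Real.cosh_arcosh (hy i hi), Real.cosh_arcosh (hy j hj)]
  have e2 : ∑ i ∈ s, HH (y i) =
      ∑ i ∈ s, (∫ u, fP u (Real.arcosh (y i)) * MM fP u ∂mu) +
      ∑ i ∈ s, (∫ u, fQ u (Real.arcosh (y i)) * MM fQ u ∂mu) := by
    rw [← Finset.sum_add_distrib]
    refine Finset.sum_congr rfl (fun i hi => ?_)
    rw [hH _ (Real.arcosh_nonneg (hy i hi)), Real.cosh_arcosh (hy i hi)]
  rw [e1, e2, ← hE]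
  linarith

end

end Pool.Agent.W334.ET
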